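import Pool.Agent.W877.UF.Stm2

set_option autoImplicit false

namespace Pool.Agent.W933.UF

open Pool.Agent.W877.UF

theorem order_nonneg {p : ℕ} [Fact p.Prime] {x : K p} (h : InO x) (hx : x ≠ 0) :
    0 ≤ HahnSeries.order x := by
  by_contra hcon
  push Not at hcon
  have h1 : HahnSeries.coeff x (HahnSeries.order x) ≠ 0 := fun h2 => hx (HahnSeries.coeff_order_eq_zero.1 h2)
  exact h1 (h _ hcon)

theorem finB (p : ℕ) [Fact p.Prime] : StmFin p := by
  intro D m n hm hn
  have hp : NeZero p := ⟨(Fact.out : p.Prime).ne_zero⟩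
  let F : K p → (Set.Icc (-(HahnSeries.order m)) (HahnSeries.order n) → ZMod p) :=
    fun x i => HahnSeries.coeff x (i : ℤ)
  refine Set.Finite.of_finite_image (f := F) (Set.toFinite _) ?_
  have hlow : ∀ x : K p, InO (m * x) → ∀ i : ℤ, i < -(HahnSeries.order m) →
      HahnSeries.coeff x i = 0 := by
    intro x hx i hi
    by_cases hx0 : x = 0
    · rw [hx0]; rfl
    · have h1 := order_nonneg hx (mul_ne_zero hm hx0)
      rw [HahnSeries.order_mul hm hx0] at h1
      exact HahnSeries.coeff_eq_zero_of_lt_order (by omega)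
  intro x hx x' hx' h
  by_contra hne
  obtain ⟨u, hu, hun⟩ := hx.2.2 x' hx'.1 (Ne.symm hne)
  have hd : x - x' ≠ 0 := sub_ne_zero.2 hne
  have hu0 : u ≠ 0 := by
    rintro rfl
    rw [zero_mul] at hun
    exact hn hun.symm
  have h1 := order_nonneg hu hu0
  have h2 : HahnSeries.order n = HahnSeries.order u + HahnSeries.order (x - x') := by
    rw [← HahnSeries.order_mul hu0 hd, hun]
  have h3 : HahnSeries.coeff (x - x') (HahnSeries.order (x - x')) ≠ 0 := fun h2 => hd (HahnSeries.coeff_order_eq_zero.1 h2)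
  apply h3
  have h4 : HahnSeries.coeff (x - x') (HahnSeries.order (x - x')) =
      HahnSeries.coeff x (HahnSeries.order (x - x')) -
        HahnSeries.coeff x' (HahnSeries.order (x - x')) := rfl
  rw [h4]
  by_cases hi : HahnSeries.order (x - x') < -(HahnSeries.order m)
  · rw [hlow x hx.2.1 _ hi, hlow x' hx'.2.1 _ hi, sub_zero]
  · have h5 := congrFun h ⟨HahnSeries.order (x - x'), by
      constructor
      · omega
      · omega⟩
    have h6 : HahnSeries.coeff x (HahnSeries.order (x - x')) =
      HahnSeries.coeff x' (HahnSeries.order (x - x')) := h5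
    rw [h6, sub_self]

end Pool.Agent.W933.UF
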